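import Pool.Agent.Lib_MP_0225c1_det.Final
import Pool.Agent.Lib_MP_0225c1_det.Greedy

/-!
# Deterministic oblivious routing: the exact worst case

Upper bound: a deterministic oblivious strategy delivers every packet within the sum of the
congestions of the edges of its path. Lower bound: no deterministic oblivious strategy does better,
even if it knows the network, if the nodes remember everything, if the packets carry everything
which the nodes on their way knew, and if every node knows in advance the names and whole paths of
all packets which will ever visit it. More generally any `n / c ^ d` deterministic strategies fail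
on one and the same collection.
-/

namespace Pool.Agent.Results.MP_0225c1_lc.Deterministic

open Pool.Agent.PR0225 (Net Coll cong)
open Pool.Agent.Det0225

theorem result :
    (∀ (G : Net) (n : ℕ), ∃ τ : Strat G, ∀ (C : Coll G n) (i : Fin n),
      Arrived τ C (((C.path i).map (cong C.path)).sum) i) ∧
    (∀ c d n : ℕ, 1 ≤ c → 1 ≤ d → 1 ≤ n →
      ∃ (G : Net) (lev : G.V → ℕ), Finite G.V ∧ Finite G.E ∧ Leveled G lev ∧
        ∀ (Ω : Type) (_ : Finite Ω) (σ : Ω → Strat G), ∃ C : Coll G n, ShortcutFree C ∧
          (∀ i e, (C.path i)[0]? = some e → lev (G.src e) = 0) ∧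
          (∀ i, (C.path i).length = 2 * d - 1) ∧ (∀ e, cong C.path e ≤ c) ∧
          (∀ i, ((C.path i).map (cong C.path)).sum ≤ c * d + d - 1) ∧
          min (Nat.card Ω) (n / c ^ d) ≤
            {ω | ∃ i, ∀ t, Arrived (σ ω) C t i → c * d + d - 1 ≤ t}.ncard) := by
  refine ⟨greedy_upper, fun c d n hc hd hn => ?_⟩
  obtain ⟨G, lev, h1, h2, -, -, h5, h6⟩ := many_gen c d n hc hd hn
  exact ⟨G, lev, h1, h2, h5, h6⟩

end Pool.Agent.Results.MP_0225c1_lc.Deterministic
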