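import Pool.Agent.Lib_MP_0225c1.Own.Main2

open MeasureTheory

namespace Pool.Agent.Results.MP_0225c1_lc.OwnCongestion

open Pool.Agent.PR0225 Pool.Agent.PR0225.Own

/-- There is one oblivious strategy such that for every `α > 0` there is `A` such that, for every
network and every collection of `n` paths without repeated edges, with probability at least
`1 - n ^ (-α)` every packet `i` arrives within `A (c + d + log n + √(c d log n)) ℓ ^ 3` steps, where
`c` is its own congestion (the maximal congestion of an edge of its path), `d` is the length of its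
own path and `ℓ = log (2 + c + d + log n)`. -/
theorem result : ∃ σ : Strategy, ∀ α : ℝ, 0 < α → ∃ A : ℝ, ∀ (G : Net) (n : ℕ) (C : Coll G n),
    (@Measure.pi (Fin n) (fun _ => σ.Seed) _ (fun _ => σ.mS) (fun _ => σ.law))
      {ω | ¬ ∀ i : Fin n, ∃ t : ℕ,
        (t : ℝ) ≤ A * ((ownCong C.path i + (C.path i).length + Real.log n +
          Real.sqrt (ownCong C.path i * (C.path i).length * Real.log n)) *
          Real.log (2 + ownCong C.path i + (C.path i).length + Real.log n) ^ 3) ∧
        Arrived C σ ω t i} ≤ ENNReal.ofReal ((n : ℝ) ^ (-α)) :=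
  Pool.Agent.PR0225.Own.main2

end Pool.Agent.Results.MP_0225c1_lc.OwnCongestion
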