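import Pool.Agent.Lib_MP_0225c1_det.Final
import Pool.Agent.Lib_MP_0225c1_det.UpA

/-!
# How many random bits oblivious routing needs

For paths of length at most `log n`, a bound `K (c + d + (log n) ^ γ)`, `γ > 1`, and failure
probability `n ^ (-α)`, about `n ^ (1 + α)` equally likely outcomes, that is `(1 + α) log₂ n`
random bits, are necessary and sufficient, up to a power of `log n` outcomes; and with a factor
`n ^ ε` fewer outcomes the time can exceed `c + d + (log n) ^ γ` by a factor of order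
`log n / log log n`.
-/

namespace Pool.Agent.Results.MP_0225c1_lc.RandomBits

open Pool.Agent.PR0225 (Net Coll cong)
open Pool.Agent.Det0225

theorem result (γ : ℝ) (hγ : 1 < γ) :
    (∀ K : ℝ, 0 < K → ∃ (A : ℝ) (n₀ : ℕ), ∀ n ≥ n₀,
      ∃ (G : Net) (lev : G.V → ℕ), Finite G.V ∧ Finite G.E ∧
        (Nat.card G.V : ℝ) ≤ (n : ℝ) ^ 3 ∧ (Nat.card G.E : ℝ) ≤ (n : ℝ) ^ 6 ∧ Leveled G lev ∧
        ∀ (Ω : Type) (_ : Finite Ω) (σ : Ω → Strat G), ∃ (C : Coll G n) (c : ℕ),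
          ShortcutFree C ∧ (∀ i e, (C.path i)[0]? = some e → lev (G.src e) = 0) ∧
          (∀ i, ((C.path i).length : ℝ) ≤ Real.log n) ∧ (∀ e, cong C.path e ≤ c) ∧
          min (Nat.card Ω : ℝ) (n / Real.log n ^ A) ≤ ({ω | Slow (σ ω) C fun i =>
              K * (c + (C.path i).length + Real.log n ^ γ)}.ncard : ℝ)) ∧
    (∀ ε : ℝ, 0 < ε → ε ≤ 1 → ∃ n₀ : ℕ, ∀ n ≥ n₀,
      ∃ (G : Net) (lev : G.V → ℕ), Finite G.V ∧ Finite G.E ∧
        (Nat.card G.V : ℝ) ≤ (n : ℝ) ^ 3 ∧ (Nat.card G.E : ℝ) ≤ (n : ℝ) ^ 6 ∧ Leveled G lev ∧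
        ∀ (Ω : Type) (_ : Finite Ω) (σ : Ω → Strat G), ∃ (C : Coll G n) (c : ℕ),
          ShortcutFree C ∧ (∀ i e, (C.path i)[0]? = some e → lev (G.src e) = 0) ∧
          (∀ i, ((C.path i).length : ℝ) ≤ Real.log n) ∧ (∀ e, cong C.path e ≤ c) ∧
          min (Nat.card Ω : ℝ) ((n : ℝ) ^ (1 - ε)) ≤ ({ω | Slow (σ ω) C fun i =>
              ε / (48 * (γ + 3)) * (Real.log n / Real.log (Real.log n)) *
                (c + (C.path i).length + Real.log n ^ γ)}.ncard : ℝ)) ∧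
    (∀ α : ℝ, 0 ≤ α → ∃ (K : ℝ) (n₀ : ℕ), ∀ n ≥ n₀,
      ∀ (G : Net) (_ : Finite G.E), (Nat.card G.E : ℝ) ≤ (n : ℝ) ^ 10 →
        ∃ (m : ℕ) (τ : Fin m → Strat G), 0 < m ∧
          (m : ℝ) ≤ (n : ℝ) ^ (1 + α) * Real.log n ^ 2 ∧
          ∀ (C : Coll G n) (c : ℕ), (∀ e, cong C.path e ≤ c) →
            (∀ i, ((C.path i).length : ℝ) ≤ Real.log n) →
            ({s | Slow (τ s) C fun _ => K * (c + Real.log n ^ γ)}.ncard : ℝ) <
              (n : ℝ) ^ (-α) * m) :=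
  ⟨fun K hK => many K γ hK (by linarith), fun ε hε hε1 => many2 ε γ hε hε1 (by linarith),
    fun α hα => upper α γ hα hγ⟩

end Pool.Agent.Results.MP_0225c1_lc.RandomBits
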