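import Pool.Agent.Lib_MP_0225c1.Main

open MeasureTheory

namespace Pool.Agent.Results.MP_0225c1_lc.UpstreamCongestion

open Pool.Agent.PR0225

/-- There is one oblivious strategy such that for every `α > 0` there is `A` such that, for every
network and every collection of `n` paths without repeated edges, with probability at least
`1 - n ^ (-α)` every packet `i` arrives within `A (c + ℓ ^ 3 d + ℓ ^ 2 log n)` steps, where `d` is
the length of its own path, `c` is its upstream congestion (the maximal congestion of an edge from
which consecutive edges of paths lead to its path) and `ℓ = log (2 + c + d + log n)`. -/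
theorem result : ∃ σ : Strategy, ∀ α : ℝ, 0 < α → ∃ A : ℝ, ∀ (G : Net) (n : ℕ) (C : Coll G n),
    (@Measure.pi (Fin n) (fun _ => σ.Seed) _ (fun _ => σ.mS) (fun _ => σ.law))
      {ω | ¬ ∀ i : Fin n, ∃ t : ℕ,
        (t : ℝ) ≤ A * (upCong C.path i +
          Real.log (2 + upCong C.path i + (C.path i).length + Real.log n) ^ 3 *
            (C.path i).length +
          Real.log (2 + upCong C.path i + (C.path i).length + Real.log n) ^ 2 * Real.log n) ∧
        Arrived C σ ω t i} ≤ ENNReal.ofReal ((n : ℝ) ^ (-α)) :=
  Pool.Agent.PR0225.main

end Pool.Agent.Results.MP_0225c1_lc.UpstreamCongestion
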